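import Mathlib

set_option autoImplicit false

namespace Pool.Agent.Results.MP_13ec72_co.HoleAtSeven

/-- a simple t-(v,k,lam) design on the point set Fin v, given by its set of blocks -/
def IsDesign (v t k lam : ℕ) (B : Finset (Finset (Fin v))) : Prop :=
  (∀ b ∈ B, b.card = k) ∧
    ∀ T : Finset (Fin v), T.card = t → (B.filter (fun b => T ⊆ b)).card = lam

/-- S is a defining set of D -/
def IsDefining (v t k lam : ℕ) (D S : Finset (Finset (Fin v))) : Prop :=
  S ⊆ D ∧ ∀ D' : Finset (Finset (Fin v)), IsDesign v t k lam D' → S ⊆ D' → D' = D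

/-- S is a minimal defining set of D -/
def IsMinimalDefining (v t k lam : ℕ) (D S : Finset (Finset (Fin v))) : Prop :=
  IsDefining v t k lam D S ∧ ∀ S' : Finset (Finset (Fin v)), S' ⊂ S → ¬ IsDefining v t k lam D S'

/-- the set of sizes of minimal defining sets of D -/
def Spec (v t k lam : ℕ) (D : Finset (Finset (Fin v))) : Set ℕ :=
  {m | ∃ S, IsMinimalDefining v t k lam D S ∧ S.card = m}

/-- subset of Fin 8 from a bit mask -/
def toS (b : ℕ) : Finset (Fin 8) := Finset.univ.filter (fun i : Fin 8 => b.testBit i.val = true)

/-- masks of the pairs -/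
def pms : List ℕ := [3, 5, 9, 17, 33, 65, 129, 6, 10, 18, 34, 66, 130, 12, 20, 36, 68, 132, 24, 40, 72, 136, 48, 80, 144, 96, 160, 192]

/-- all 4-subsets: mask, mask of contained pairs, union of later pair masks -/
def base : List (ℕ × ℕ × ℕ) := [(15, 8583, 268435455), (23, 17035, 268435455), (39, 33939, 268435455), (71, 67747, 268435455), (135, 135363, 268435455), (27, 262925, 268435455), (43, 525589, 268435455), (75, 1050917, 268435455), (139, 2101573, 268435455), (51, 4195865, 268435455), (83, 8391209, 268435455), (147, 16781897, 268435455), (99, 33557553, 268435455), (163, 67114065, 268435455), (195, 134223969, 268435454), (29, 286734, 268435454), (45, 565270, 268435454), (77, 1122342, 268435454), (141, 2236486, 268435454), (53, 4243482, 268435454), (85, 8470570, 268435454), (149, 16924746, 268435454), (101, 33652786, 268435454), (165, 67272786, 268435454), (197, 134414434, 268435452), (57, 4980764, 268435452), (89, 9699372, 268435452), (153, 19136588, 268435452), (105, 35127348, 268435452), (169, 69730388, 268435452), (201, 137363556, 268435448), (113, 46137400, 268435448),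 (177, 88080472, 268435448), (209, 159383656, 268435440), (225, 234881136, 268435328), (30, 287616, 268435328), (46, 566656, 268435328), (78, 1124736, 268435328), (142, 2240896, 268435328), (54, 4245120, 268435328), (86, 8473216, 268435328), (150, 16929408, 268435328), (102, 33655936, 268435328), (166, 67277952, 268435328), (198, 134420608, 268435200), (58, 4982528, 268435200), (90, 9702144, 268435200), (154, 19141376, 268435200), (106, 35130624, 268435200), (170, 69735680, 268435200), (202, 137369856, 268434944), (114, 46140928, 268434944), (178, 88086016, 268434944), (210, 159390208, 268434432), (226, 234888192, 268427264), (60, 5038080, 268427264), (92, 9789440, 268427264), (156, 19292160, 268427264), (108, 35233792, 268427264), (172, 69902336, 268427264), (204, 137568256, 268419072), (116, 46252032, 268419072), (180, 88260608, 268419072), (212, 159596544, 268402688), (228, 235110400, 268173312), (120, 47972352, 268173312), (184, 90963968, 268173312), (216, 162791424, 267911168), (232, 238551040, 264241152), (240, 264241152, 0)]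

/-- the blocks of the design as masks -/
def dl : Fin 14 → ℕ := ![15, 51, 60, 85, 90, 102, 105, 150, 153, 165, 170, 195, 204, 240]

/-- membership mask of the design -/
def Dm : ℕ := 1766847064804145555106867797171951263455635817253459027706575085369327616

/-- alternative designs: mask of the missed blocks, and the blocks -/
def trades : List (ℕ × List ℕ) := [
  (30, [15, 53, 58, 83, 92, 102, 105, 150, 153, 165, 170, 195, 204, 240]),
  (45, [29, 46, 51, 71, 90, 105, 116, 150, 153, 165, 170, 195, 204, 240]),
  (51, [27, 39, 60, 78, 85, 105, 114, 150, 153, 165, 170, 195, 204, 240]),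
  (75, [23, 43, 60, 77, 90, 102, 113, 150, 153, 165, 170, 195, 204, 240]),
  (85, [30, 45, 51, 75, 85, 102, 120, 150, 153, 165, 170, 195, 204, 240]),
  (102, [15, 54, 57, 85, 90, 99, 108, 150, 153, 165, 170, 195, 204, 240]),
  (120, [15, 51, 60, 86, 89, 101, 106, 150, 153, 165, 170, 195, 204, 240]),
  (390, [15, 54, 57, 85, 90, 102, 105, 147, 156, 165, 170, 195, 204, 240]),
  (408, [15, 51, 60, 86, 89, 102, 105, 149, 154, 165, 170, 195, 204, 240]),
  (645, [30, 45, 51, 85, 90, 102, 105, 135, 153, 170, 180, 195, 204, 240]),
  (680, [15, 51, 60, 86, 90, 101, 105, 149, 153, 166, 170, 195, 204, 240]),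
  (771, [27, 39, 60, 85, 90, 102, 105, 141, 150, 170, 177, 195, 204, 240]),
  (840, [15, 51, 60, 89, 90, 101, 102, 149, 150, 169, 170, 195, 204, 240]),
  (1155, [23, 43, 60, 85, 90, 102, 105, 142, 153, 165, 178, 195, 204, 240]),
  (1200, [15, 51, 60, 85, 86, 105, 106, 153, 154, 165, 166, 195, 204, 240]),
  (1285, [29, 46, 51, 85, 90, 102, 105, 139, 150, 165, 184, 195, 204, 240]),
  (1360, [15, 51, 60, 85, 89, 102, 106, 150, 154, 165, 169, 195, 204, 240]),
  (1542, [15, 53, 58, 85, 90, 102, 105, 150, 153, 163, 172, 195, 204, 240]),
  (1632, [15, 51, 60, 85, 90, 101, 106, 150, 153, 166, 169, 195, 204, 240]),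
  (1920, [15, 51, 60, 85, 90, 102, 105, 149, 154, 166, 169, 195, 204, 240]),
  (2193, [30, 51, 60, 75, 85, 102, 105, 135, 153, 165, 170, 204, 210, 240]),
  (2210, [15, 54, 60, 85, 90, 99, 105, 147, 153, 165, 170, 198, 204, 240]),
  (2313, [29, 51, 60, 71, 90, 102, 105, 139, 150, 165, 170, 204, 209, 240]),
  (2370, [15, 57, 60, 85, 90, 99, 102, 147, 150, 165, 170, 201, 204, 240]),
  (2570, [15, 53, 60, 83, 90, 102, 105, 150, 153, 163, 170, 197, 204, 240]),
  (2625, [45, 51, 60, 75, 85, 90, 102, 135, 150, 153, 170, 204, 225, 240]),
  (3090, [15, 58, 60, 83, 85, 102, 105, 150, 153, 163, 165, 202, 204, 240]),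
  (3105, [46, 51, 60, 71, 85, 90, 105, 139, 150, 153, 165, 204, 226, 240]),
  (4233, [23, 51, 60, 77, 90, 102, 105, 142, 153, 165, 170, 195, 212, 240]),
  (4260, [15, 51, 54, 85, 90, 105, 108, 153, 156, 165, 170, 195, 198, 240]),
  (4369, [27, 51, 60, 78, 85, 102, 105, 141, 150, 165, 170, 195, 216, 240]),
  (4420, [15, 51, 57, 85, 90, 102, 108, 150, 156, 165, 170, 195, 201, 240]),
  (4620, [15, 51, 53, 90, 92, 102, 105, 150, 153, 170, 172, 195, 197, 240]),
  (4641, [39, 51, 60, 78, 85, 90, 105, 141, 150, 153, 170, 195, 228, 240]),
  (5140, [15, 51, 58, 85, 92, 102, 105, 150, 153, 165, 172, 195, 202, 240]),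
  (5185, [43, 51, 60, 77, 85, 90, 102, 142, 150, 153, 165, 195, 232, 240]),
  (6168, [15, 51, 60, 83, 92, 102, 105, 150, 153, 165, 170, 197, 202, 240]),
  (6240, [15, 51, 60, 85, 90, 99, 108, 150, 153, 165, 170, 198, 201, 240]),
  (6528, [15, 51, 60, 85, 90, 102, 105, 147, 156, 165, 170, 198, 201, 240]),
  (7680, [15, 51, 60, 85, 90, 102, 105, 150, 153, 163, 172, 197, 202, 240]),
  (8330, [15, 23, 60, 90, 102, 105, 113, 153, 165, 170, 178, 195, 204, 212]),
  (8340, [15, 30, 51, 85, 102, 105, 120, 153, 165, 170, 180, 195, 204, 210]),
  (8460, [15, 29, 51, 90, 102, 105, 116, 150, 165, 170, 184, 195, 204, 209]),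
  (8466, [15, 27, 60, 85, 102, 105, 114, 150, 165, 170, 177, 195, 204, 216]),
  (8738, [15, 39, 60, 85, 90, 105, 114, 150, 153, 170, 177, 195, 204, 228]),
  (8772, [15, 45, 51, 85, 90, 102, 120, 150, 153, 170, 180, 195, 204, 225]),
  (9252, [15, 46, 51, 85, 90, 105, 116, 150, 153, 165, 184, 195, 204, 226]),
  (9282, [15, 43, 60, 85, 90, 102, 113, 150, 153, 165, 178, 195, 204, 232]),
  (10280, [15, 51, 60, 71, 90, 105, 116, 150, 153, 165, 170, 204, 209, 226]),
  (10320, [15, 51, 60, 75, 85, 102, 120, 150, 153, 165, 170, 204, 210, 225]),
  (10880, [15, 51, 60, 85, 90, 102, 105, 135, 153, 170, 180, 204, 210, 225]),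
  (11520, [15, 51, 60, 85, 90, 102, 105, 139, 150, 165, 184, 204, 209, 226]),
  (12336, [15, 51, 60, 78, 85, 105, 114, 150, 153, 165, 170, 195, 216, 228]),
  (12360, [15, 51, 60, 77, 90, 102, 113, 150, 153, 165, 170, 195, 212, 232]),
  (13056, [15, 51, 60, 85, 90, 102, 105, 141, 150, 170, 177, 195, 216, 228]),
  (13440, [15, 51, 60, 85, 90, 102, 105, 142, 153, 165, 178, 195, 212, 232])]

/-- defining sets of size six with search data -/
def sixes : List (ℕ × ℕ × ℕ × ℕ × ℕ) := [
  (1008, 46780897623823247067084098768901645919373500612608, 268435455, 216626475, 138420225),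
  (1512, 1496590521856078941925138253569041343705917274718208, 268435455, 215395155, 138420225),
  (1752, 1543347156269126187623538337467333172148104140423168, 268435455, 191212749, 138420225),
  (1848, 1543357147002975129307211528662728895372151129899008, 268435455, 190476981, 138420225),
  (2532, 50216813883106291339920669070226277510761300387325643063296, 268435455, 217261851, 75497730),
  (2772, 50216813929862925752967914768626361409053128829512508768256, 268435455, 266413455, 2163720),
  (3372, 50216815379682540719072551310353707404588549840103272349696, 268435455, 265429911, 1180176),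
  (3612, 50216815426439175132119797008753791302880378282290138054656, 268435455, 192095901, 50331780),
  (4578, 25711008708143857253900627831143166586537189206686593938620416, 268435455, 214759779, 75497730),
  (4914, 25711008708190623879047524018525239861630876758352827793801216, 268435455, 264794535, 544800),
  (5322, 25711008709640423512545930771699620825235620732915324578430976, 268435455, 264546759, 297024),
  (5658, 25711008709687190137692826959081694100329308284581558433611776, 268435455, 189593829, 50331780),
  (6342, 25761225522026939282029772498844708849177340689596732946776064, 268435455, 128290254, 75497730),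
  (6438, 25761225522026949272763621440528382040372736412820779936251904, 268435455, 127554486, 75497730),
  (6678, 25761225522073705907176668686226782124271028241262966801956864, 268435455, 128538030, 50331780),
  (7182, 25761225523523515531408924381084836279071167939049510576062464, 268435455, 127306710, 50331780),
  (8913, 1766847064778384329583344270222560797426866861905699191253958496918470656, 268435455, 141425769, 2163720),
  (9009, 1766847064778384329583344280213294646368550535096894586977182543907946496, 268435455, 142308921, 544800),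
  (9417, 1766847064778384329584794079846793053121724916060499330951745040692576256, 268435455, 142061145, 297024),
  (9513, 1766847064778384329584794089837526902063408589251694726674969087682052096, 268435455, 140442225, 1180176),
  (10437, 1766847064778434546397180595616276894848870004084441050908426449060921344, 268435455, 79138650, 2163720),
  (10533, 1766847064778434546397180605607010743790553677275636446631650496050397184, 268435455, 79386426, 1180176),
  (10773, 1766847064778434546397227362241423791036252077359534738460092682916102144, 268435455, 54220476, 2163720),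
  (11277, 1766847064778434546398677171865656046731110131514334878157879226690207744, 268435455, 53972700, 1180176),
  (12483, 1766847064804095338291441346578837602010942944393467478814725717356478464, 268435455, 78503274, 297024),
  (12579, 1766847064804095338291441356569571450952626617584662874537949764345954304, 268435455, 77519730, 544800),
  (12819, 1766847064804095338291488113203984498198325017668561166366391951211659264, 268435455, 53337324, 544800),
  (13323, 1766847064804095338292937922828216753893183071823361306064178494985764864, 268435455, 52353780, 297024)]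

/-- one defining set of size eight with search data -/
def eight : ℕ × ℕ × ℕ × ℕ × ℕ := (955, 46780897623823247026519318247224534991412402356224, 268434805, 242757664, 134742016)

/-- exhaustive completion search -/
def srch (S : ℕ) : List (ℕ × ℕ × ℕ) → ℕ → ℕ → ℕ → Bool → Bool
  | [], n1, _, _, ok => ok || n1 != 0
  | (b, v, u) :: r, n1, n2, n3, ok =>
    if S.testBit b then srch S r n1 n2 n3 ok
    else
      (if n1 &&& u = n1 then srch S r n1 n2 n3 (ok && !Dm.testBit b) else true) &&
      (if n1 &&& v = v then
        (if ((n1 ^^^ v) ||| (n2 &&& v)) &&& u = ((n1 ^^^ v) ||| (n2 &&& v)) then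
          srch S r ((n1 ^^^ v) ||| (n2 &&& v)) ((n2 ^^^ (n2 &&& v)) ||| (n3 &&& v))
            (n3 ^^^ (n3 &&& v)) (ok && Dm.testBit b)
        else true)
      else true)

lemma six_search : sixes.all (fun s => srch s.2.1 base s.2.2.1 s.2.2.2.1 s.2.2.2.2 true) = true := by
  decide +kernel

lemma eight_search :
    srch eight.2.1 base eight.2.2.1 eight.2.2.2.1 eight.2.2.2.2 true = true := by
  decide +kernel

/-- static data of a search entry -/
def dataOk (s : ℕ × ℕ × ℕ × ℕ × ℕ) : Bool :=
  base.all (fun e => s.2.1.testBit e.1 ==
    (List.finRange 14).any (fun i => dl i == e.1 && s.1.testBit i.val)) &&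
  (List.range 28).all (fun p => (s.2.2.1.testBit p).toNat + (s.2.2.2.1.testBit p).toNat +
    (s.2.2.2.2.testBit p).toNat + base.countP (fun e => s.2.1.testBit e.1 && e.2.1.testBit p) == 3) &&
  decide (s.2.2.1 < 2 ^ 28) && decide (s.2.2.2.1 < 2 ^ 28) && decide (s.2.2.2.2 < 2 ^ 28) &&
  s.2.2.2.2 &&& s.2.2.2.1 == s.2.2.2.2 && s.2.2.2.1 &&& s.2.2.1 == s.2.2.2.1

lemma six_data : sixes.all dataOk = true := by decide +kernel
lemma eight_data : dataOk eight = true := by decide +kernel

/-- later pair masks are covered by the recorded union -/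
def Good : List (ℕ × ℕ × ℕ) → Prop
  | [] => True
  | (_, _, u) :: r => (∀ e ∈ r, e.2.1 &&& u = e.2.1) ∧ Good r

instance : ∀ l, Decidable (Good l)
  | [] => isTrue trivial
  | (_, _, u) :: r =>
    have : Decidable (Good r) := instDecidableGood r
    inferInstanceAs (Decidable ((∀ e ∈ r, e.2.1 &&& u = e.2.1) ∧ Good r))

lemma base_good : Good base := by decide +kernel

lemma srch_sound (S : ℕ) (D' : Finset (Finset (Fin 8))) :
    ∀ (l : List (ℕ × ℕ × ℕ)) (n1 n2 n3 : ℕ) (ok : Bool), Good l →
      (∀ p, n3.testBit p = true → n2.testBit p = true) →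
      (∀ p, n2.testBit p = true → n1.testBit p = true) →
      (∀ p, (n1.testBit p).toNat + (n2.testBit p).toNat + (n3.testBit p).toNat =
        l.countP (fun e => decide (toS e.1 ∈ D') && !S.testBit e.1 && e.2.1.testBit p)) →
      srch S l n1 n2 n3 ok = true →
      ok = true ∧ ∀ e ∈ l, S.testBit e.1 = false → (toS e.1 ∈ D' ↔ Dm.testBit e.1 = true) := by
  intro l
  induction l with
  | nil =>
    intro n1 n2 n3 ok _ _ _ hcnt hs
    have hn1 : n1 = 0 := by
      apply Nat.eq_of_testBit_eq
      intro p
      have := hcnt p
      rw [List.countP_nil] at this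
      rw [Nat.zero_testBit]
      cases h : n1.testBit p
      · rfl
      · rw [h] at this
        simp at this
    refine ⟨?_, fun e he => absurd he List.not_mem_nil⟩
    unfold srch at hs
    rw [hn1] at hs
    simpa using hs
  | cons a r ih =>
    obtain ⟨b, v, u⟩ := a
    intro n1 n2 n3 ok hgood h32 h21 hcnt hs
    obtain ⟨hg1, hg2⟩ := hgood
    unfold srch at hs
    by_cases hSb : S.testBit b = true
    · rw [if_pos hSb] at hs
      have hc : ∀ p, (n1.testBit p).toNat + (n2.testBit p).toNat + (n3.testBit p).toNat =
          r.countP (fun e => decide (toS e.1 ∈ D') && !S.testBit e.1 && e.2.1.testBit p) := by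
        intro p
        rw [hcnt p, List.countP_cons]
        simp [hSb]
      obtain ⟨h1, h2⟩ := ih n1 n2 n3 ok hg2 h32 h21 hc hs
      refine ⟨h1, ?_⟩
      intro e he hSe
      rw [List.mem_cons] at he
      rcases he with rfl | he
      · rw [hSb] at hSe; exact absurd hSe (by decide)
      · exact h2 e he hSe
    · rw [if_neg hSb] at hs
      have hSb' : S.testBit b = false := by simpa using hSb
      rw [Bool.and_eq_true] at hs
      obtain ⟨hex, hin⟩ := hs
      by_cases hD : toS b ∈ D'
      · -- include
        have hc : ∀ p, (n1.testBit p).toNat + (n2.testBit p).toNat + (n3.testBit p).toNat =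
            r.countP (fun e => decide (toS e.1 ∈ D') && !S.testBit e.1 && e.2.1.testBit p) +
              (v.testBit p).toNat := by
          intro p
          rw [hcnt p, List.countP_cons]
          cases hv : v.testBit p <;> simp [hSb', hD, hv]
        have hv1 : n1 &&& v = v := by
          apply Nat.eq_of_testBit_eq
          intro p
          rw [Nat.testBit_land]
          have := hc p
          have a1 := h21 p
          have a2 := h32 p
          cases hv : v.testBit p
          · simp
          · cases hn : n1.testBit p
            · rw [hn] at this a1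
              rw [hv] at this
              cases hn2 : n2.testBit p
              · rw [hn2] at a2 this
                cases hn3 : n3.testBit p
                · rw [hn3] at this; simp at this
                · rw [hn3] at a2; simp at a2
              · rw [hn2] at a1; simp at a1
            · rfl
        rw [if_pos hv1] at hin
        set m1 := (n1 ^^^ v) ||| (n2 &&& v) with hm1
        set m2 := (n2 ^^^ (n2 &&& v)) ||| (n3 &&& v) with hm2
        set m3 := n3 ^^^ (n3 &&& v) with hm3
        have hb : ∀ p, v.testBit p = true → n1.testBit p = true := by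
          intro p hp
          have : (n1 &&& v).testBit p = true := by rw [hv1]; exact hp
          rw [Nat.testBit_land, Bool.and_eq_true] at this
          exact this.1
        have hcm : ∀ p, (m1.testBit p).toNat + (m2.testBit p).toNat + (m3.testBit p).toNat =
            r.countP (fun e => decide (toS e.1 ∈ D') && !S.testBit e.1 && e.2.1.testBit p) := by
          intro p
          have e1 := hc p
          have e2 := hb p
          have e3 := h21 p
          have e4 := h32 p
          rw [hm1, hm2, hm3]
          simp only [Nat.testBit_lor, Nat.testBit_xor, Nat.testBit_land]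
          revert e1 e2 e3 e4
          generalize r.countP (fun e => decide (toS e.1 ∈ D') && !S.testBit e.1 &&
            e.2.1.testBit p) = c
          cases n1.testBit p <;> cases n2.testBit p <;> cases n3.testBit p <;>
            cases v.testBit p <;> simp <;> intros <;> omega
        have h32m : ∀ p, m3.testBit p = true → m2.testBit p = true := by
          intro p
          have e2 := hb p
          have e3 := h21 p
          have e4 := h32 p
          rw [hm2, hm3]
          simp only [Nat.testBit_lor, Nat.testBit_xor, Nat.testBit_land]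
          revert e2 e3 e4
          cases n1.testBit p <;> cases n2.testBit p <;> cases n3.testBit p <;>
            cases v.testBit p <;> simp
        have h21m : ∀ p, m2.testBit p = true → m1.testBit p = true := by
          intro p
          have e2 := hb p
          have e3 := h21 p
          have e4 := h32 p
          rw [hm1, hm2]
          simp only [Nat.testBit_lor, Nat.testBit_xor, Nat.testBit_land]
          revert e2 e3 e4
          cases n1.testBit p <;> cases n2.testBit p <;> cases n3.testBit p <;>
            cases v.testBit p <;> simp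
        have hu : m1 &&& u = m1 := by
          apply Nat.eq_of_testBit_eq
          intro p
          rw [Nat.testBit_land]
          cases hp : m1.testBit p
          · rfl
          · have hpos : 0 < r.countP (fun e => decide (toS e.1 ∈ D') && !S.testBit e.1 &&
                e.2.1.testBit p) := by
              rw [← hcm p, hp]
              simp
            rw [List.countP_pos_iff] at hpos
            obtain ⟨e, he, hpe⟩ := hpos
            simp only [Bool.and_eq_true] at hpe
            have h3 := hg1 e he
            have h4 : (e.2.1 &&& u).testBit p = true := by rw [h3]; exact hpe.2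
            rw [Nat.testBit_land, Bool.and_eq_true] at h4
            rw [h4.2]
            rfl
        rw [if_pos hu] at hin
        obtain ⟨h1, h2⟩ := ih m1 m2 m3 _ hg2 h32m h21m hcm hin
        rw [Bool.and_eq_true] at h1
        refine ⟨h1.1, ?_⟩
        intro e he hSe
        rw [List.mem_cons] at he
        rcases he with rfl | he
        · exact ⟨fun _ => h1.2, fun _ => hD⟩
        · exact h2 e he hSe
      · -- exclude
        have hc : ∀ p, (n1.testBit p).toNat + (n2.testBit p).toNat + (n3.testBit p).toNat =
            r.countP (fun e => decide (toS e.1 ∈ D') && !S.testBit e.1 && e.2.1.testBit p) := by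
          intro p
          rw [hcnt p, List.countP_cons]
          simp [hD]
        have hu : n1 &&& u = n1 := by
          apply Nat.eq_of_testBit_eq
          intro p
          rw [Nat.testBit_land]
          cases hp : n1.testBit p
          · rfl
          · have hpos : 0 < r.countP (fun e => decide (toS e.1 ∈ D') && !S.testBit e.1 &&
                e.2.1.testBit p) := by
              rw [← hc p, hp]
              simp
            rw [List.countP_pos_iff] at hpos
            obtain ⟨e, he, hpe⟩ := hpos
            simp only [Bool.and_eq_true] at hpe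
            have h3 := hg1 e he
            have h4 : (e.2.1 &&& u).testBit p = true := by rw [h3]; exact hpe.2
            rw [Nat.testBit_land, Bool.and_eq_true] at h4
            rw [h4.2]
            rfl
        rw [if_pos hu] at hex
        obtain ⟨h1, h2⟩ := ih n1 n2 n3 _ hg2 h32 h21 hc hex
        rw [Bool.and_eq_true] at h1
        refine ⟨h1.1, ?_⟩
        intro e he hSe
        rw [List.mem_cons] at he
        rcases he with rfl | he
        · refine ⟨fun h => absurd h hD, fun h => ?_⟩
          have := h1.2
          simp only at h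
          rw [h] at this
          exact absurd this (by decide)
        · exact h2 e he hSe

/-- facts about the tables -/
lemma four_sets : ∀ X : Finset (Fin 8), X.card = 4 → ∃ e ∈ base, toS e.1 = X := by
  decide +kernel

lemma base_card : ∀ e ∈ base, (toS e.1).card = 4 := by decide +kernel

lemma base_nodup : (base.map (fun e => toS e.1)).Nodup := by decide +kernel

lemma pair_sets : ∀ X : Finset (Fin 8), X.card = 2 → ∃ p : Fin 28, toS (pms.getD p 0) = X := by
  decide +kernel

lemma pair_card : ∀ p : Fin 28, (toS (pms.getD p 0)).card = 2 := by decide +kernel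

lemma base_v : ∀ e ∈ base, ∀ p : Fin 28,
    e.2.1.testBit p = decide (toS (pms.getD p 0) ⊆ toS e.1) := by decide +kernel

lemma base_v_lt : ∀ e ∈ base, e.2.1 < 2 ^ 28 := by decide +kernel

/-- counting in an arbitrary design -/
lemma design_count {D' : Finset (Finset (Fin 8))} (hD : IsDesign 8 2 4 3 D') (p : Fin 28) :
    base.countP (fun e => decide (toS e.1 ∈ D') && e.2.1.testBit p) = 3 := by
  have h1 := hD.2 _ (pair_card p)
  rw [← h1]
  have h2 : D'.filter (fun b => toS (pms.getD p 0) ⊆ b) =
      ((base.map (fun e => toS e.1)).filter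
        (fun X => decide (X ∈ D') && decide (toS (pms.getD p 0) ⊆ X))).toFinset := by
    ext X
    rw [Finset.mem_filter, List.mem_toFinset, List.mem_filter, List.mem_map]
    simp only [Bool.and_eq_true, decide_eq_true_eq]
    constructor
    · rintro ⟨hX, hp⟩
      obtain ⟨e, he, heX⟩ := four_sets X (hD.1 X hX)
      exact ⟨⟨e, he, heX⟩, hX, hp⟩
    · rintro ⟨_, hX, hp⟩
      exact ⟨hX, hp⟩
  rw [h2, List.toFinset_card_of_nodup (base_nodup.filter _), ← List.countP_eq_length_filter,
    List.countP_map]
  apply List.countP_congr
  intro e he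
  rw [Function.comp_apply, base_v e he p]

lemma complete_unique (s : ℕ × ℕ × ℕ × ℕ × ℕ) (hd : dataOk s = true)
    (hs : srch s.2.1 base s.2.2.1 s.2.2.2.1 s.2.2.2.2 true = true)
    (D' : Finset (Finset (Fin 8))) (hD : IsDesign 8 2 4 3 D')
    (hS : ∀ e ∈ base, s.2.1.testBit e.1 = true → toS e.1 ∈ D') :
    ∀ e ∈ base, s.2.1.testBit e.1 = false → (toS e.1 ∈ D' ↔ Dm.testBit e.1 = true) := by
  obtain ⟨m, S, n1, n2, n3⟩ := s
  unfold dataOk at hd
  simp only [Bool.and_eq_true, decide_eq_true_eq, beq_iff_eq, List.all_eq_true,
    List.mem_range] at hd hs hS ⊢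
  obtain ⟨⟨⟨⟨⟨⟨_, hc⟩, l1⟩, l2⟩, l3⟩, h32⟩, h21⟩ := hd
  refine (srch_sound S D' base n1 n2 n3 true base_good ?_ ?_ ?_ hs).2
  · intro p hp
    rw [← h32, Nat.testBit_land, Bool.and_eq_true] at hp
    exact hp.2
  · intro p hp
    rw [← h21, Nat.testBit_land, Bool.and_eq_true] at hp
    exact hp.2
  · intro p
    by_cases hp : p < 28
    · have e1 := hc p hp
      have e2 := design_count hD ⟨p, hp⟩
      simp only at e2
      have e3 : base.countP (fun e => decide (toS e.1 ∈ D') && e.2.1.testBit p) =
          base.countP (fun e => S.testBit e.1 && e.2.1.testBit p) +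
          base.countP (fun e => decide (toS e.1 ∈ D') && !S.testBit e.1 && e.2.1.testBit p) := by
        have : ∀ l : List (ℕ × ℕ × ℕ), (∀ e ∈ l, S.testBit e.1 = true → toS e.1 ∈ D') →
            l.countP (fun e => decide (toS e.1 ∈ D') && e.2.1.testBit p) =
          l.countP (fun e => S.testBit e.1 && e.2.1.testBit p) +
          l.countP (fun e => decide (toS e.1 ∈ D') && !S.testBit e.1 && e.2.1.testBit p) := by
          intro l
          induction l with
          | nil => intro _; rfl
          | cons a r ih =>
            intro h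
            rw [List.countP_cons, List.countP_cons, List.countP_cons,
              ih (fun e he => h e (List.mem_cons_of_mem _ he))]
            have ha := h a List.mem_cons_self
            cases h1 : S.testBit a.1
            · by_cases h2 : toS a.1 ∈ D' <;> cases h3 : a.2.1.testBit p <;>
                simp [h2] <;> omega
            · have h2 := ha h1
              cases h3 : a.2.1.testBit p <;> simp [h2] <;> omega
        exact this base hS
      omega
    · have hlt : ∀ x : ℕ, x < 2 ^ 28 → x.testBit p = false := by
        intro x hx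
        apply Nat.testBit_lt_two_pow
        exact lt_of_lt_of_le hx (Nat.pow_le_pow_right (by norm_num) (by omega))
      rw [hlt n1 l1, hlt n2 l2, hlt n3 l3]
      symm
      have : base.countP (fun e => decide (toS e.1 ∈ D') && !S.testBit e.1 && e.2.1.testBit p)
          = 0 := by
        rw [List.countP_eq_zero]
        intro e he
        rw [hlt _ (base_v_lt e he)]
        simp
      rw [this]
      rfl

/-- the design -/
def DD : Finset (Finset (Fin 8)) := Finset.univ.image (fun i : Fin 14 => toS (dl i))

/-- sub-collection given by a 14-bit mask -/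
def sub (m : ℕ) : Finset (Finset (Fin 8)) :=
  (Finset.univ.filter (fun i : Fin 14 => m.testBit i.val = true)).image (fun i => toS (dl i))

lemma dl_inj : Function.Injective (fun i : Fin 14 => toS (dl i)) := by decide +kernel

lemma mem_sub {m : ℕ} {i : Fin 14} : toS (dl i) ∈ sub m ↔ m.testBit i.val = true := by
  unfold sub
  rw [Finset.mem_image]
  constructor
  · rintro ⟨j, hj, hji⟩
    have := dl_inj hji
    subst this
    exact (Finset.mem_filter.mp hj).2
  · intro h
    exact ⟨i, Finset.mem_filter.mpr ⟨Finset.mem_univ _, h⟩, rfl⟩

lemma sub_le (m : ℕ) : sub m ⊆ DD := by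
  intro X hX
  unfold sub at hX
  rw [Finset.mem_image] at hX
  obtain ⟨i, _, rfl⟩ := hX
  exact Finset.mem_image_of_mem _ (Finset.mem_univ _)

lemma dd_design : IsDesign 8 2 4 3 DD := by
  refine ⟨by decide +kernel, ?_⟩
  intro T hT
  obtain ⟨p, rfl⟩ := pair_sets T hT
  revert p
  decide +kernel

lemma dl_base : ∀ i : Fin 14, ∃ e ∈ base, e.1 = dl i := by decide +kernel

lemma Dm_iff : ∀ e ∈ base, (Dm.testBit e.1 = true ↔ ∃ i : Fin 14, dl i = e.1) := by
  decide +kernel

lemma defining_of (s : ℕ × ℕ × ℕ × ℕ × ℕ) (hd : dataOk s = true)
    (hs : srch s.2.1 base s.2.2.1 s.2.2.2.1 s.2.2.2.2 true = true) :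
    IsDefining 8 2 4 3 DD (sub s.1) := by
  refine ⟨sub_le _, ?_⟩
  intro D' hD hsub
  have hkey : ∀ e ∈ base, (s.2.1.testBit e.1 = true ↔
      ∃ i : Fin 14, dl i = e.1 ∧ s.1.testBit i.val = true) := by
    have h := hd
    unfold dataOk at h
    simp only [Bool.and_eq_true, decide_eq_true_eq, beq_iff_eq, List.all_eq_true] at h
    obtain ⟨⟨⟨⟨⟨⟨h1, _⟩, _⟩, _⟩, _⟩, _⟩, _⟩ := h
    intro e he
    rw [h1 e he, List.any_eq_true]
    constructor
    · rintro ⟨i, _, hi⟩
      rw [Bool.and_eq_true, beq_iff_eq] at hi
      exact ⟨i, hi.1, hi.2⟩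
    · rintro ⟨i, h2, h3⟩
      refine ⟨i, List.mem_finRange i, ?_⟩
      rw [Bool.and_eq_true, beq_iff_eq]
      exact ⟨h2, h3⟩
  have hS : ∀ e ∈ base, s.2.1.testBit e.1 = true → toS e.1 ∈ D' := by
    intro e he h
    obtain ⟨i, h1, h2⟩ := (hkey e he).mp h
    rw [← h1]
    exact hsub (mem_sub.mpr h2)
  have huniq := complete_unique s hd hs D' hD hS
  ext X
  constructor
  · intro hX
    obtain ⟨e, he, rfl⟩ := four_sets X (hD.1 X hX)
    cases hSe : s.2.1.testBit e.1
    · have h1 := (huniq e he hSe).mp hX
      obtain ⟨i, hi⟩ := (Dm_iff e he).mp h1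
      rw [← hi]
      exact Finset.mem_image_of_mem _ (Finset.mem_univ _)
    · obtain ⟨i, h1, _⟩ := (hkey e he).mp hSe
      rw [← h1]
      exact Finset.mem_image_of_mem _ (Finset.mem_univ _)
  · intro hX
    unfold DD at hX
    rw [Finset.mem_image] at hX
    obtain ⟨i, _, rfl⟩ := hX
    obtain ⟨e, he, hei⟩ := dl_base i
    rw [← hei]
    cases hSe : s.2.1.testBit e.1
    · exact (huniq e he hSe).mpr ((Dm_iff e he).mpr ⟨i, hei.symm⟩)
    · exact hS e he hSe

/-- an alternative design -/
def alt (l : List ℕ) : Finset (Finset (Fin 8)) := (l.map toS).toFinset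

/-- check of an alternative design -/
def altOk (t : ℕ × List ℕ) : Bool :=
  t.2.all (fun b => (toS b).card == 4) &&
  (List.finRange 28).all (fun p =>
    ((alt t.2).filter (fun b => toS (pms.getD p 0) ⊆ b)).card == 3) &&
  (List.finRange 14).all (fun i => t.1.testBit i.val || t.2.contains (dl i)) &&
  (List.finRange 14).any (fun i => !decide (toS (dl i) ∈ alt t.2))

lemma trades_ok : trades.all altOk = true := by decide +kernel

lemma not_defining {t : ℕ × List ℕ} (ht : t ∈ trades) {S : Finset (Finset (Fin 8))}
    (hSD : S ⊆ DD) (hS : ∀ i : Fin 14, toS (dl i) ∈ S → t.1.testBit i.val = false) :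
    ¬ IsDefining 8 2 4 3 DD S := by
  rintro ⟨_, huniq⟩
  have h := List.all_eq_true.mp trades_ok t ht
  unfold altOk at h
  simp only [Bool.and_eq_true, List.all_eq_true, beq_iff_eq, List.any_eq_true,
    Bool.or_eq_true] at h
  obtain ⟨⟨⟨h1, h2⟩, h3⟩, i0, _, h4⟩ := h
  have hdes : IsDesign 8 2 4 3 (alt t.2) := by
    refine ⟨?_, ?_⟩
    · intro b hb
      unfold alt at hb
      rw [List.mem_toFinset, List.mem_map] at hb
      obtain ⟨x, hx, rfl⟩ := hb
      exact h1 x hx
    · intro T hT
      obtain ⟨p, rfl⟩ := pair_sets T hT
      exact h2 p (List.mem_finRange p)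
  have hle : S ⊆ alt t.2 := by
    intro X hX
    have hXD := hSD hX
    unfold DD at hXD
    rw [Finset.mem_image] at hXD
    obtain ⟨i, _, rfl⟩ := hXD
    have h5 := hS i hX
    rcases h3 i (List.mem_finRange i) with h6 | h6
    · rw [h5] at h6; exact absurd h6 (by decide)
    · unfold alt
      rw [List.mem_toFinset, List.mem_map]
      exact ⟨dl i, by simpa using h6, rfl⟩
  have h7 := huniq _ hdes hle
  have h8 : toS (dl i0) ∈ DD := Finset.mem_image_of_mem _ (Finset.mem_univ _)
  rw [← h7] at h8
  simp [h8] at h4

/-- every single deletion is hit by an alternative design -/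
def minOk (m : ℕ) : Bool :=
  (List.finRange 14).all (fun i => !m.testBit i.val ||
    trades.any (fun t => t.1 &&& (m ^^^ 2 ^ i.val) == 0))

lemma disj_bit {t m : ℕ} (h : t &&& m = 0) (p : ℕ) (hp : m.testBit p = true) :
    t.testBit p = false := by
  have : (t &&& m).testBit p = false := by rw [h, Nat.zero_testBit]
  rw [Nat.testBit_land, hp] at this
  simpa using this

lemma minimal_of (s : ℕ × ℕ × ℕ × ℕ × ℕ) (hd : dataOk s = true)
    (hs : srch s.2.1 base s.2.2.1 s.2.2.2.1 s.2.2.2.2 true = true) (hm : minOk s.1 = true) :
    IsMinimalDefining 8 2 4 3 DD (sub s.1) := by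
  refine ⟨defining_of s hd hs, ?_⟩
  intro S' hS'
  obtain ⟨hle, hne⟩ := hS'
  obtain ⟨X, hX, hXn⟩ := Finset.not_subset.mp hne
  have hXD := sub_le _ hX
  unfold DD at hXD
  rw [Finset.mem_image] at hXD
  obtain ⟨i, _, rfl⟩ := hXD
  have hi := mem_sub.mp hX
  unfold minOk at hm
  have h1 := List.all_eq_true.mp hm i (List.mem_finRange i)
  rw [hi] at h1
  simp only [Bool.not_true, Bool.false_or, List.any_eq_true, beq_iff_eq] at h1
  obtain ⟨t, ht, h2⟩ := h1
  apply not_defining ht (hle.trans (sub_le _))
  intro j hj
  apply disj_bit h2
  rw [Nat.testBit_xor]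
  have hj1 := mem_sub.mp (hle hj)
  have hij : i.val ≠ j.val := by
    intro h
    have : i = j := Fin.ext h
    rw [this] at hXn
    exact hXn hj
  rw [hj1, Nat.testBit_two_pow_of_ne hij]
  rfl

/-- number of bits among the first fourteen -/
def pop14 (m : ℕ) : ℕ :=
  (m.testBit 0).toNat + (m.testBit 1).toNat + (m.testBit 2).toNat + (m.testBit 3).toNat +
  (m.testBit 4).toNat + (m.testBit 5).toNat + (m.testBit 6).toNat + (m.testBit 7).toNat +
  (m.testBit 8).toNat + (m.testBit 9).toNat + (m.testBit 10).toNat + (m.testBit 11).toNat +
  (m.testBit 12).toNat + (m.testBit 13).toNat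

lemma card_sub (m : ℕ) : (sub m).card = pop14 m := by
  unfold sub
  rw [Finset.card_image_of_injective _ dl_inj, Finset.card_filter]
  simp only [Fin.sum_univ_succ, Fin.sum_univ_zero]
  unfold pop14
  have : ∀ b : Bool, (if b = true then 1 else 0) = b.toNat := by decide
  simp only [this]
  simp only [Fin.val_zero, Fin.val_succ, zero_add, Nat.reduceAdd]
  ring

/-- the global check -/
lemma check_all : (List.range 128).all (fun a => (List.range 128).all (fun b =>
    (pop14 (128 * a + b) != 7) || trades.any (fun t => t.1 &&& (128 * a + b) == 0) ||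
      sixes.any (fun s => s.1 &&& (128 * a + b) == s.1 && pop14 s.1 == 6))) = true := by
  decide +kernel

lemma seven_not : 7 ∉ Spec 8 2 4 3 DD := by
  rintro ⟨S, ⟨hdef, hmin⟩, hcard⟩
  have hSD := hdef.1
  set m := Nat.ofBits (fun i : Fin 14 => decide (toS (dl i) ∈ S)) with hm
  have hbit : ∀ i : Fin 14, m.testBit i.val = decide (toS (dl i) ∈ S) := by
    intro i
    rw [hm, Nat.testBit_ofBits_lt _ _ i.2]
  have hSm : S = sub m := by
    ext X
    constructor
    · intro hX
      have hXD := hSD hX
      unfold DD at hXD
      rw [Finset.mem_image] at hXD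
      obtain ⟨i, _, rfl⟩ := hXD
      rw [mem_sub, hbit]
      simpa using hX
    · intro hX
      have hXD := sub_le _ hX
      unfold DD at hXD
      rw [Finset.mem_image] at hXD
      obtain ⟨i, _, rfl⟩ := hXD
      rw [mem_sub, hbit] at hX
      simpa using hX
  have hlt : m < 2 ^ 14 := Nat.ofBits_lt_two_pow _
  have h1 := List.all_eq_true.mp check_all (m / 128) (List.mem_range.mpr (by omega))
  have h2 := List.all_eq_true.mp h1 (m % 128) (List.mem_range.mpr (by omega))
  rw [Nat.div_add_mod] at h2
  simp only [Bool.or_eq_true, bne_iff_ne, List.any_eq_true, beq_iff_eq, Bool.and_eq_true] at h2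
  rcases h2 with (h2 | ⟨t, ht, h2⟩) | ⟨s, hs, h2, h3⟩
  · apply h2
    rw [← card_sub, ← hSm, hcard]
  · apply not_defining ht hSD ?_ hdef
    intro i hi
    apply disj_bit h2
    rw [hbit]
    simpa using hi
  · have hle : sub s.1 ⊆ S := by
      intro X hX
      have hXD := sub_le _ hX
      unfold DD at hXD
      rw [Finset.mem_image] at hXD
      obtain ⟨i, _, rfl⟩ := hXD
      rw [mem_sub] at hX
      rw [hSm, mem_sub]
      rw [← h2, Nat.testBit_land, Bool.and_eq_true] at hX
      exact hX.2
    have hne : sub s.1 ≠ S := by
      intro h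
      have h5 := card_sub s.1
      rw [h, hcard, h3] at h5
      omega
    apply hmin (sub s.1) (Finset.ssubset_iff_subset_ne.mpr ⟨hle, hne⟩)
    exact defining_of s (List.all_eq_true.mp six_data s hs) (List.all_eq_true.mp six_search s hs)

/-- the first defining set of size six -/
lemma six_mem : 6 ∈ Spec 8 2 4 3 DD := by
  have hh : sixes.head?.isSome = true := by decide +kernel
  obtain ⟨s, hs⟩ := Option.isSome_iff_exists.mp hh
  have hmem : s ∈ sixes := List.mem_of_mem_head? hs
  have hall : sixes.all (fun s => minOk s.1 && pop14 s.1 == 6) = true := by decide +kernel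
  have h1 := List.all_eq_true.mp hall s hmem
  rw [Bool.and_eq_true, beq_iff_eq] at h1
  refine ⟨sub s.1, minimal_of s (List.all_eq_true.mp six_data s hmem)
    (List.all_eq_true.mp six_search s hmem) h1.1, ?_⟩
  rw [card_sub, h1.2]

lemma eight_mem : 8 ∈ Spec 8 2 4 3 DD := by
  have h1 : minOk eight.1 = true := by decide +kernel
  have h2 : pop14 eight.1 = 8 := by decide +kernel
  exact ⟨sub eight.1, minimal_of eight eight_data eight_search h1, by rw [card_sub, h2]⟩

/-- **Main theorem**: a 2-(8,4,3) design whose spectrum of minimal defining set sizes has a hole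
at 7. -/
theorem result : ∃ D : Finset (Finset (Fin 8)), IsDesign 8 2 4 3 D ∧
    6 ∈ Spec 8 2 4 3 D ∧ 7 ∉ Spec 8 2 4 3 D ∧ 8 ∈ Spec 8 2 4 3 D :=
  ⟨DD, dd_design, six_mem, seven_not, eight_mem⟩

end Pool.Agent.Results.MP_13ec72_co.HoleAtSeven
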